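import Pool.Agent.H1.WellB

open Laplacian

theorem Pool.Agent.Results.MP_66e6f4_an.Disproof.result :
    ∃ (f : ℝ → ℝ) (u : EuclideanSpace ℝ (Fin 3) → ℝ),
      ContDiff ℝ (⊤ : ℕ∞) f ∧ HasCompactSupport f ∧ (∀ w, 0 ≤ f w) ∧ f ≠ 0 ∧
      ContDiff ℝ 2 u ∧ (∀ x, Δ u x = f (u x)) ∧
      {x | fderiv ℝ u x = 0}.Finite ∧
      {x | 0 < u x} ⊆ {x | 0 < x 0} ∧
      (∀ x, |u x| ≤ 3) ∧
      ¬ ∃ (e : EuclideanSpace ℝ (Fin 3)) (c : ℝ) (V : ℝ → ℝ), ∀ x, u x = V (inner ℝ e x + c) := by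
  open Pool.Agent.H1.Well in
  refine ⟨f, u, f_smooth, f_supp, f_nonneg, f_ne, u_C2, u_lap,
    (Set.finite_singleton 0).subset fun x hx => u_crit x hx,
    fun x hx => absurd (U_neg _) (not_lt.2 (le_of_lt hx)), fun x => ?_,
    fun ⟨e, c, V, h⟩ => not_oneD e c V h⟩
  have h1 := Pool.Agent.H1.Well.U_gt (sq_nonneg ‖x‖)
  have h2 := Pool.Agent.H1.Well.U_neg (‖x‖ ^ 2)
  unfold Pool.Agent.H1.Well.u
  rw [abs_le]; constructor <;> linarith
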