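import Mathlib

open Laplacian InnerProductSpace

theorem Pool.Agent.Results.MP_66e6f4_an.Harmonic.result :
    ∃ (f : ℝ → ℝ) (u : EuclideanSpace ℝ (Fin 3) → ℝ),
      ContDiff ℝ (⊤ : ℕ∞) f ∧ HasCompactSupport f ∧ (∀ w, 0 ≤ f w) ∧
      ContDiff ℝ 2 u ∧ (∀ x, Δ u x = f (u x)) ∧
      (∀ x, fderiv ℝ u x ≠ 0) ∧
      {x | 0 < u x} ⊆ {x | 0 < x 0} ∧ {x | 0 < u x}.Nonempty ∧
      ¬ ∃ (e : EuclideanSpace ℝ (Fin 3)) (c : ℝ) (V : ℝ → ℝ), ∀ x, u x = V (inner ℝ e x + c) := by
  obtain ⟨p, hp⟩ : ∃ p : Fin 3 → EuclideanSpace ℝ (Fin 3) →L[ℝ] ℝ, ∀ i x, p i x = x i :=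
    ⟨fun i => EuclideanSpace.proj i, fun _ _ => rfl⟩
  have hc : ∀ x : EuclideanSpace ℝ (Fin 3), HasFDerivAt (fun y : EuclideanSpace ℝ (Fin 3) => Real.exp (y 0) * Real.cos (y 1))
      ((Real.exp (x 0) * Real.cos (x 1)) • p 0 - (Real.exp (x 0) * Real.sin (x 1)) • p 1) x := by
    intro x
    have := ((p 0).hasFDerivAt (x := x)).exp.fun_mul ((p 1).hasFDerivAt (x := x)).cos
    simp only [hp] at this
    refine HasFDerivAt.congr_fderiv this ?_
    ext v; simp [hp]; ring
  have hs : ∀ x : EuclideanSpace ℝ (Fin 3), HasFDerivAt (fun y : EuclideanSpace ℝ (Fin 3) => Real.exp (y 0) * Real.sin (y 1))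
      ((Real.exp (x 0) * Real.sin (x 1)) • p 0 + (Real.exp (x 0) * Real.cos (x 1)) • p 1) x := by
    intro x
    have := ((p 0).hasFDerivAt (x := x)).exp.fun_mul ((p 1).hasFDerivAt (x := x)).sin
    simp only [hp] at this
    refine HasFDerivAt.congr_fderiv this ?_
    ext v; simp [hp]; ring
  have e1 : fderiv ℝ (fun y : EuclideanSpace ℝ (Fin 3) => Real.exp (y 0) * Real.cos (y 1) - 1) = fun x : EuclideanSpace ℝ (Fin 3) =>
      (Real.exp (x 0) * Real.cos (x 1)) • p 0 - (Real.exp (x 0) * Real.sin (x 1)) • p 1 :=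
    funext fun x => ((hc x).sub_const 1).fderiv
  refine ⟨0, fun y => Real.exp (y 0) * Real.cos (y 1) - 1, contDiff_const, HasCompactSupport.zero,
    fun _ => le_rfl, by fun_prop, fun x => ?_, fun x hx => ?_, fun x hx => ?_, ?_, ?_⟩
  · rw [laplacian_eq_iteratedFDeriv_orthonormalBasis _ (EuclideanSpace.basisFun (Fin 3) ℝ)]
    simp only [iteratedFDeriv_two_apply]
    have e2 : fderiv ℝ (fun x : EuclideanSpace ℝ (Fin 3) => (Real.exp (x 0) * Real.cos (x 1)) • p 0 -
        (Real.exp (x 0) * Real.sin (x 1)) • p 1) x = _ :=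
      (((hc x).smul_const (p 0)).fun_sub ((hs x).smul_const (p 1))).fderiv
    erw [e1, e2]
    simp [hp, Fin.sum_univ_three]
  · erw [e1] at hx
    have h0 := congrArg (fun L : EuclideanSpace ℝ (Fin 3) →L[ℝ] ℝ => L (EuclideanSpace.single 0 1)) hx
    have h1 := congrArg (fun L : EuclideanSpace ℝ (Fin 3) →L[ℝ] ℝ => L (EuclideanSpace.single 1 1)) hx
    simp [hp] at h0 h1
    have := Real.sin_sq_add_cos_sq (x 1)
    rw [h0, h1] at this
    norm_num at this
  · simp only [Set.mem_ofPred_eq] at hx ⊢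
    by_contra h
    have h1 : Real.exp (x 0) ≤ 1 := Real.exp_le_one_iff.2 (not_lt.1 h)
    nlinarith [Real.cos_le_one (x 1), Real.exp_pos (x 0)]
  · refine ⟨EuclideanSpace.single 0 1, ?_⟩
    simp
  · rintro ⟨e, c, V, h⟩
    have key : ∀ y : EuclideanSpace ℝ (Fin 3), inner ℝ e y = 0 → Real.exp (y 0) * Real.cos (y 1) = 1 := by
      intro y hy
      have h1 := h y
      have h2 := h 0
      rw [hy] at h1
      simp at h1 h2
      linarith
    have a1 : ∀ t : ℝ, Real.exp (t * e 1) * Real.cos (t * e 0) = 1 := by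
      intro t
      have := key !₂[t * e 1, -(t * e 0), 0] (by
        simp [EuclideanSpace.inner_eq_star_dotProduct, dotProduct, Fin.sum_univ_three]
        ring)
      simpa using this
    have b0 : e 0 = 0 := by
      by_contra h0
      have := a1 (Real.pi / 2 / e 0)
      rw [div_mul_cancel₀ _ h0] at this
      simp at this
    have := key !₂[1, 0, 0] (by
      simp [EuclideanSpace.inner_eq_star_dotProduct, dotProduct, Fin.sum_univ_three, b0])
    simp at this
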